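import Pool.Agent.Helper296.Ovals.Scalar2

set_option autoImplicit false
open MeasureTheory Set Real
open scoped RealInnerProductSpace

namespace Pool.Helper296.Ovals

variable {E : Type*} [NormedAddCommGroup E] [InnerProductSpace ℝ E] [MeasurableSpace E]
  [BorelSpace E] [FiniteDimensional ℝ E]

/-- Averaging the scalar inequality over directions `b`. -/
theorem averaged (ν : Measure E) [IsFiniteMeasure ν] (hb : ∀ᵐ b ∂ν, ‖b‖ ≤ 1)
    (a1 a2 ap : ℝ)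
    (h2 : ∀ v : E, ∫ b, ⟪b, v⟫ ^ 2 ∂ν = a2 * ‖v‖ ^ 2)
    (hp : ∀ v : E, ‖v‖ = 1 → ∫ b, |⟪b, v⟫| ^ ((4:ℝ)/3) ∂ν = ap)
    (hsg : ∀ v : E, ‖v‖ = 1 → ∀ u : E, ∫ b, ⟪b, u⟫ * sg ⟪b, v⟫ ∂ν = a1 * ⟪u, v⟫)
    (T : ℝ → E) (hT : ContDiff ℝ 1 T) (hTP : Function.Periodic T (2 * π))
    (hTn : ∀ t, ‖T t‖ = 1) (hT0 : ∫ t in (0:ℝ)..(2 * π), T t = 0)
    (φ : ℝ → ℝ) (hφ : ContDiff ℝ 1 φ) (hφP : Function.Periodic φ (2 * π))
    (σ : ℝ) (hσ : 0 < σ) :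
    (3 / σ ^ 2 * ap - 2 / σ ^ 3 * a1) * (∫ t in (0:ℝ)..(2 * π), (φ t) ^ 2) ≤
      a2 * ∫ t in (0:ℝ)..(2 * π), ((deriv φ t) ^ 2 + ‖deriv T t‖ ^ 2 * (φ t) ^ 2) := by
  have hπ := pi_pos
  have hle : (0:ℝ) ≤ 2 * π := by positivity
  have : ProperSpace E := FiniteDimensional.proper_real E
  set μ : Measure ℝ := volume.restrict (Ioc (0:ℝ) (2 * π)) with hμ
  have : IsFiniteMeasure μ := ⟨by rw [hμ, Measure.restrict_apply_univ]; exact measure_Ioc_lt_top⟩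
  have hTc : Continuous T := hT.continuous
  have hT'c : Continuous (deriv T) := hT.continuous_deriv (by norm_num)
  have hφc : Continuous φ := hφ.continuous
  have hφ'c : Continuous (deriv φ) := hφ.continuous_deriv (by norm_num)
  have hTd : ∀ t, HasDerivAt T (deriv T t) t := fun t =>
    (hT.differentiable (by norm_num) t).hasDerivAt
  -- a.e. facts on the product
  have hae : ∀ᵐ z ∂(ν.prod μ), z ∈ (Metric.closedBall (0:E) 1) ×ˢ (Icc (0:ℝ) (2 * π)) := by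
    have h1 : ∀ᵐ z ∂(ν.prod μ), ‖z.1‖ ≤ 1 := Measure.quasiMeasurePreserving_fst.ae hb
    have h2' : ∀ᵐ t ∂μ, t ∈ Ioc (0:ℝ) (2 * π) := ae_restrict_mem measurableSet_Ioc
    have h2 : ∀ᵐ z ∂(ν.prod μ), z.2 ∈ Ioc (0:ℝ) (2 * π) := Measure.quasiMeasurePreserving_snd.ae h2'
    filter_upwards [h1, h2] with z hz1 hz2
    exact ⟨by simpa using hz1, Ioc_subset_Icc_self hz2⟩
  have hcomp : IsCompact ((Metric.closedBall (0:E) 1) ×ˢ (Icc (0:ℝ) (2 * π))) :=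
    (isCompact_closedBall 0 1).prod isCompact_Icc
  have integ : ∀ g : E × ℝ → ℝ, Continuous g → Integrable g (ν.prod μ) := by
    intro g hg
    obtain ⟨C, hC⟩ := hcomp.exists_bound_of_continuousOn hg.continuousOn
    exact Integrable.of_bound hg.aestronglyMeasurable C (hae.mono fun z hz => hC z hz)
  have integ' : ∀ g : E × ℝ → ℝ, Continuous g →
      Integrable (fun z => g z * sg ⟪z.1, T z.2⟫) (ν.prod μ) := by
    intro g hg
    obtain ⟨C, hC⟩ := hcomp.exists_bound_of_continuousOn hg.continuousOn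
    have hm : Measurable (fun z : E × ℝ => g z * sg ⟪z.1, T z.2⟫) := by
      have hin : Continuous (fun z : E × ℝ => ⟪z.1, T z.2⟫) := by fun_prop
      exact hg.measurable.mul (measurable_sg.comp hin.measurable)
    refine Integrable.of_bound hm.aestronglyMeasurable C (hae.mono fun z hz => ?_)
    rw [norm_mul]
    have h1 := hC z hz
    have h3 := abs_sg_le ⟪z.1, T z.2⟫
    calc ‖g z‖ * ‖sg ⟪z.1, T z.2⟫‖ ≤ ‖g z‖ * 1 :=
          mul_le_mul_of_nonneg_left h3 (norm_nonneg _)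
      _ ≤ C := by rw [mul_one]; exact h1
  have toμ : ∀ f : ℝ → ℝ, ∫ t in (0:ℝ)..(2 * π), f t = ∫ t, f t ∂μ := by
    intro f; rw [intervalIntegral.integral_of_le hle]
  set Y : E := ∫ t in (0:ℝ)..(2 * π), (φ t) ^ 2 • T t with hY
  have hYb : ∀ b : E, ∫ t in (0:ℝ)..(2 * π), (φ t) ^ 2 * ⟪b, T t⟫ = ⟪b, Y⟫ := by
    intro b
    have hi : IntervalIntegrable (fun t => (φ t) ^ 2 • T t) volume 0 (2 * π) := by
      apply Continuous.intervalIntegrable; fun_prop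
    have := (innerSL ℝ b).intervalIntegral_comp_comm hi
    simp only [innerSL_apply_apply, real_inner_smul_right] at this
    exact this
  have hT0b : ∀ b : E, ∫ t in (0:ℝ)..(2 * π), ⟪b, T t⟫ = 0 := by
    intro b
    have hi : IntervalIntegrable T volume 0 (2 * π) := hTc.intervalIntegrable _ _
    have := (innerSL ℝ b).intervalIntegral_comp_comm hi
    simp only [innerSL_apply_apply] at this
    rw [this, hT0, inner_zero_right]
  have sc : ∀ b : E,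
      3 / σ ^ 2 * (∫ t, (φ t) ^ 2 * |⟪b, T t⟫| ^ ((4:ℝ)/3) ∂μ) -
      2 / σ ^ 3 * (∫ t, (φ t) ^ 2 * |⟪b, T t⟫| ∂μ) -
      1 / (σ ^ 3 * π) * (∫ t, ⟪b, Y⟫ * sg ⟪b, T t⟫ ∂μ) ≤
      ∫ t, ⟪b, deriv φ t • T t + φ t • deriv T t⟫ ^ 2 ∂μ := by
    intro b
    have hs1 : ContDiff ℝ 1 (fun t => ⟪b, T t⟫) := contDiff_const.inner ℝ hT
    have hsP : Function.Periodic (fun t => ⟪b, T t⟫) (2 * π) := fun x => by simp only [hTP x]
    have hd : deriv (fun t => ⟪b, T t⟫) = fun t => ⟪b, deriv T t⟫ := by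
      funext t
      have h := ((innerSL ℝ b).hasFDerivAt.comp_hasDerivAt t (hTd t)).deriv
      simpa [Function.comp_def, innerSL_apply_apply] using h
    have h := scalar_main (fun t => ⟪b, T t⟫) φ hs1 hφ hsP hφP (hT0b b) σ hσ
    rw [hd, hYb b] at h
    simp only [toμ] at h
    have e1 : ∫ t, (deriv φ t * ⟪b, T t⟫ + φ t * ⟪b, deriv T t⟫) ^ 2 ∂μ =
        ∫ t, ⟪b, deriv φ t • T t + φ t • deriv T t⟫ ^ 2 ∂μ := by
      apply integral_congr_ae; filter_upwards with t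
      rw [inner_add_right, real_inner_smul_right, real_inner_smul_right]
    have e2 : ∫ t, ⟪b, Y⟫ * sg ⟪b, T t⟫ ∂μ = ⟪b, Y⟫ * ∫ t, sg ⟪b, T t⟫ ∂μ := by
      rw [integral_const_mul]
    rw [e1] at h
    rw [e2]
    calc _ = 3 / σ ^ 2 * (∫ t, (φ t) ^ 2 * |⟪b, T t⟫| ^ ((4:ℝ)/3) ∂μ) -
      2 / σ ^ 3 * (∫ t, (φ t) ^ 2 * |⟪b, T t⟫| ∂μ) -
      1 / (σ ^ 3 * π) * (∫ t, sg ⟪b, T t⟫ ∂μ) * ⟪b, Y⟫ := by ring
      _ ≤ _ := h
  -- the four functions on the product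
  have cA : Continuous (fun z : E × ℝ => (φ z.2) ^ 2 * |⟪z.1, T z.2⟫| ^ ((4:ℝ)/3)) := by
    have h1 : Continuous (fun z : E × ℝ => |⟪z.1, T z.2⟫|) := by fun_prop
    have h2 : Continuous (fun z : E × ℝ => |⟪z.1, T z.2⟫| ^ ((4:ℝ)/3)) :=
      h1.rpow_const (fun z => Or.inr (by norm_num))
    have h3 : Continuous (fun z : E × ℝ => (φ z.2) ^ 2) := by fun_prop
    exact h3.mul h2
  have cB : Continuous (fun z : E × ℝ => (φ z.2) ^ 2 * |⟪z.1, T z.2⟫|) := by fun_prop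
  have cF : Continuous (fun z : E × ℝ => ⟪z.1, deriv φ z.2 • T z.2 + φ z.2 • deriv T z.2⟫ ^ 2) := by
    fun_prop
  have cZ : Continuous (fun z : E × ℝ => ⟪z.1, Y⟫) := by fun_prop
  have iA := integ _ cA
  have iB := integ _ cB
  have iF := integ _ cF
  have iZ := integ' _ cZ
  have I1 : Integrable (fun b : E => ∫ t, (φ t) ^ 2 * |⟪b, T t⟫| ^ ((4:ℝ)/3) ∂μ) ν := iA.integral_prod_left
  have I2 : Integrable (fun b : E => ∫ t, (φ t) ^ 2 * |⟪b, T t⟫| ∂μ) ν := iB.integral_prod_left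
  have I3 : Integrable (fun b : E => ∫ t, ⟪b, Y⟫ * sg ⟪b, T t⟫ ∂μ) ν := iZ.integral_prod_left
  have I4 : Integrable (fun b : E => ∫ t, ⟪b, deriv φ t • T t + φ t • deriv T t⟫ ^ 2 ∂μ) ν :=
    iF.integral_prod_left
  have hint : ∫ b, (3 / σ ^ 2 * (∫ t, (φ t) ^ 2 * |⟪b, T t⟫| ^ ((4:ℝ)/3) ∂μ) -
      2 / σ ^ 3 * (∫ t, (φ t) ^ 2 * |⟪b, T t⟫| ∂μ) -
      1 / (σ ^ 3 * π) * (∫ t, ⟪b, Y⟫ * sg ⟪b, T t⟫ ∂μ)) ∂ν ≤
      ∫ b, ∫ t, ⟪b, deriv φ t • T t + φ t • deriv T t⟫ ^ 2 ∂μ ∂ν :=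
    integral_mono (((I1.const_mul _).sub (I2.const_mul _)).sub (I3.const_mul _)) I4 sc
  have J1 : Integrable (fun b : E => 3 / σ ^ 2 * (∫ t, (φ t) ^ 2 * |⟪b, T t⟫| ^ ((4:ℝ)/3) ∂μ)) ν :=
    I1.const_mul _
  have J2 : Integrable (fun b : E => 2 / σ ^ 3 * (∫ t, (φ t) ^ 2 * |⟪b, T t⟫| ∂μ)) ν := I2.const_mul _
  have J3 : Integrable (fun b : E => 1 / (σ ^ 3 * π) * (∫ t, ⟪b, Y⟫ * sg ⟪b, T t⟫ ∂μ)) ν :=
    I3.const_mul _
  have J12 : Integrable (fun b : E => 3 / σ ^ 2 * (∫ t, (φ t) ^ 2 * |⟪b, T t⟫| ^ ((4:ℝ)/3) ∂μ) -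
      2 / σ ^ 3 * (∫ t, (φ t) ^ 2 * |⟪b, T t⟫| ∂μ)) ν := J1.sub J2
  rw [integral_sub J12 J3, integral_sub J1 J2, integral_const_mul, integral_const_mul,
    integral_const_mul] at hint
  have S1 : ∫ b, ∫ t, (φ t) ^ 2 * |⟪b, T t⟫| ^ ((4:ℝ)/3) ∂μ ∂ν = ap * ∫ t, (φ t) ^ 2 ∂μ := by
    rw [integral_integral_swap iA, ← integral_const_mul]
    apply integral_congr_ae; filter_upwards with t
    rw [integral_const_mul, hp _ (hTn t)]; ring
  have S2 : ∫ b, ∫ t, (φ t) ^ 2 * |⟪b, T t⟫| ∂μ ∂ν = a1 * ∫ t, (φ t) ^ 2 ∂μ := by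
    rw [integral_integral_swap iB, ← integral_const_mul]
    apply integral_congr_ae; filter_upwards with t
    rw [integral_const_mul]
    have h := hsg (T t) (hTn t) (T t)
    rw [real_inner_self_eq_norm_sq, hTn t] at h
    have e : ∫ b, |⟪b, T t⟫| ∂ν = ∫ b, ⟪b, T t⟫ * sg ⟪b, T t⟫ ∂ν := by
      apply integral_congr_ae; filter_upwards with b
      rw [mul_sg]
    rw [e, h]; ring
  have S3 : ∫ b, ∫ t, ⟪b, Y⟫ * sg ⟪b, T t⟫ ∂μ ∂ν = 0 := by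
    rw [integral_integral_swap iZ]
    have e : ∀ t, ∫ b, ⟪b, Y⟫ * sg ⟪b, T t⟫ ∂ν = a1 * ⟪Y, T t⟫ := fun t => hsg (T t) (hTn t) Y
    simp only [e]
    rw [integral_const_mul, ← toμ, hT0b Y, mul_zero]
  have S4 : ∫ b, ∫ t, ⟪b, deriv φ t • T t + φ t • deriv T t⟫ ^ 2 ∂μ ∂ν =
      a2 * ∫ t, ((deriv φ t) ^ 2 + ‖deriv T t‖ ^ 2 * (φ t) ^ 2) ∂μ := by
    rw [integral_integral_swap iF, ← integral_const_mul]
    apply integral_congr_ae; filter_upwards with t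
    rw [h2]
    congr 1
    have hort : ⟪T t, deriv T t⟫ = 0 := by
      have h1 : HasDerivAt (fun t => ⟪T t, T t⟫) (⟪T t, deriv T t⟫ + ⟪deriv T t, T t⟫) t :=
        (hTd t).inner ℝ (hTd t)
      have h2' : (fun t => ⟪T t, T t⟫) = fun _ => (1:ℝ) := by
        funext x; rw [real_inner_self_eq_norm_sq, hTn x]; norm_num
      rw [h2'] at h1
      have h3 := h1.unique (hasDerivAt_const t (1:ℝ))
      rw [real_inner_comm (T t) (deriv T t)] at h3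
      linarith
    rw [norm_add_sq_real, norm_smul, norm_smul, real_inner_smul_left, real_inner_smul_right, hort,
      hTn t, mul_one, mul_pow, norm_eq_abs, norm_eq_abs, sq_abs, sq_abs]
    ring
  rw [S1, S2, S3, S4] at hint
  rw [toμ, toμ]
  linarith

end Pool.Helper296.Ovals
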