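import Pool.Agent.Helper296.Ovals.Avg

set_option autoImplicit false
open MeasureTheory Set Real
open scoped RealInnerProductSpace ContDiff

namespace Pool.Helper296.Ovals

/-- What we need of the normalised surface measure of the unit sphere of `ℝ³`. -/
def SphereMeasure (ν : Measure (EuclideanSpace ℝ (Fin 3))) : Prop :=
  IsFiniteMeasure ν ∧ (∀ᵐ b ∂ν, ‖b‖ ≤ 1) ∧
  (∀ v, ∫ b, ⟪b, v⟫ ^ 2 ∂ν = (1/3) * ‖v‖ ^ 2) ∧
  (∀ v, ‖v‖ = 1 → ∫ b, |⟪b, v⟫| ^ ((4:ℝ)/3) ∂ν = 3/7) ∧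
  (∀ v, ‖v‖ = 1 → ∀ u, ∫ b, ⟪b, u⟫ * sg ⟪b, v⟫ ∂ν = (1/2) * ⟪u, v⟫)

theorem main_of_sphere (hν : ∃ ν, SphereMeasure ν)
    (γ : ℝ → EuclideanSpace ℝ (Fin 3)) (hγ : ContDiff ℝ 2 γ)
    (hγP : Function.Periodic γ (2 * π)) (hγ1 : ∀ s, ‖deriv γ s‖ = 1)
    (φ : ℝ → ℝ) (hφ : ContDiff ℝ 1 φ) (hφP : Function.Periodic φ (2 * π)) :
    (324 / 343 : ℝ) * ∫ s in (0:ℝ)..(2 * π), (φ s) ^ 2 ≤
      ∫ s in (0:ℝ)..(2 * π), ((deriv φ s) ^ 2 + ‖deriv (deriv γ) s‖ ^ 2 * (φ s) ^ 2) := by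
  obtain ⟨ν, hfin, hb, h2, hp, hsg⟩ := hν
  have hT : ContDiff ℝ 1 (deriv γ) := by
    have : ContDiff ℝ (1 + 1) γ := by simpa [one_add_one_eq_two] using hγ
    exact (contDiff_succ_iff_deriv.1 this).2.2
  have hTP : Function.Periodic (deriv γ) (2 * π) := by
    intro x
    have : deriv (fun y => γ (y + 2 * π)) x = deriv γ (x + 2 * π) := deriv_comp_add_const _ _ _
    rw [← this]; congr 1; funext y; exact hγP y
  have hT0 : ∫ t in (0:ℝ)..(2 * π), deriv γ t = 0 := by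
    have hd : ∀ t ∈ uIcc (0:ℝ) (2 * π), DifferentiableAt ℝ γ t := fun t _ =>
      hγ.differentiable (by norm_num) t
    rw [intervalIntegral.integral_deriv_eq_sub hd (hT.continuous.intervalIntegrable _ _)]
    have := hγP 0
    rw [zero_add] at this
    rw [this, sub_self]
  have h := averaged ν hb (1/2) (1/3) (3/7) h2 hp hsg (deriv γ) hT hTP hγ1 hT0 φ hφ hφP (7/6)
    (by norm_num)
  have e : (3 / (7/6:ℝ) ^ 2 * (3/7) - 2 / (7/6:ℝ) ^ 3 * (1/2)) = (1/3) * (324/343) := by norm_num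
  rw [e] at h
  linarith

end Pool.Helper296.Ovals
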