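import Mathlib

set_option autoImplicit false
open MeasureTheory Set Real

namespace Pool.Helper296.Ovals

/-- If `G t = 0`, the product rule only needs continuity of the other factor. -/
lemma hasDerivAt_mul_of_zero {C G : ℝ → ℝ} {g t : ℝ} (hC : ContinuousAt C t)
    (hG : HasDerivAt G g t) (h0 : G t = 0) :
    HasDerivAt (fun x => C x * G x) (C t * g) t := by
  rw [hasDerivAt_iff_tendsto_slope] at hG ⊢
  have h1 : Filter.Tendsto C (nhdsWithin t {t}ᶜ) (nhds (C t)) :=
    hC.tendsto.mono_left nhdsWithin_le_nhds
  have h2 := h1.mul hG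
  refine h2.congr' ?_
  filter_upwards [self_mem_nhdsWithin] with x hx
  simp only [slope_def_field, h0]
  ring

lemma hasDerivAt_max_sq (x : ℝ) : HasDerivAt (fun y : ℝ => (max y 0) ^ 2) (2 * max x 0) x := by
  rcases lt_trichotomy x 0 with h | h | h
  · have h1 : HasDerivAt (fun _ : ℝ => (0:ℝ)) 0 x := hasDerivAt_const x 0
    have h2 : (fun y : ℝ => (max y 0) ^ 2) =ᶠ[nhds x] fun _ => 0 := by
      filter_upwards [Iio_mem_nhds h] with y hy
      rw [max_eq_right (le_of_lt hy)]; norm_num
    rw [max_eq_right h.le, mul_zero]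
    exact h1.congr_of_eventuallyEq h2
  · subst h
    have h1 : HasDerivAt (fun y : ℝ => max y 0 * max y 0) (max (0:ℝ) 0 * 0 ) 0 := by
      rw [hasDerivAt_iff_tendsto_slope]
      have hc : Filter.Tendsto (fun y : ℝ => max y 0) (nhdsWithin 0 {0}ᶜ) (nhds 0) := by
        have : Continuous (fun y : ℝ => max y 0) := by fun_prop
        have h := (this.tendsto 0).mono_left (nhdsWithin_le_nhds (s := {0}ᶜ))
        simpa using h
      have hb : ∀ᶠ y in nhdsWithin (0:ℝ) {0}ᶜ, |slope (fun y : ℝ => max y 0 * max y 0) 0 y| ≤ max y 0 := by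
        filter_upwards [self_mem_nhdsWithin] with y hy
        simp only [slope_def_field, max_self, mul_zero, sub_zero]
        rcases le_or_gt y 0 with h | h
        · rw [max_eq_right h]; simp
        · rw [max_eq_left h.le]
          rw [mul_div_assoc, div_self h.ne', mul_one, abs_of_pos h]
      have := squeeze_zero_norm' (f := fun y => slope (fun y : ℝ => max y 0 * max y 0) 0 y) (by simpa using hb) hc
      simpa using this
    have h2 : (fun y : ℝ => (max y 0) ^ 2) = fun y : ℝ => max y 0 * max y 0 := by
      funext y; ring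
    rw [h2]; simpa using h1
  · have h1 : HasDerivAt (fun y : ℝ => y ^ 2) (2 * x) x := by
      simpa using hasDerivAt_pow 2 x
    have h2 : (fun y : ℝ => (max y 0) ^ 2) =ᶠ[nhds x] fun y => y ^ 2 := by
      filter_upwards [Ioi_mem_nhds h] with y hy
      rw [max_eq_left (le_of_lt hy)]
    rw [max_eq_left h.le]
    exact h1.congr_of_eventuallyEq h2

/-- Dirichlet inequality on the set where `s > 0`: with `ℓ` the measure of that set in a period
and any `L > ℓ`. -/
theorem dirichlet (s φ : ℝ → ℝ) (hs : ContDiff ℝ 1 s) (hφ : ContDiff ℝ 1 φ) (t0 P : ℝ)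
    (hP : 0 < P) (h0 : s t0 ≤ 0) (h1 : s (t0 + P) ≤ 0) (L : ℝ)
    (hL : ∫ t in t0..(t0 + P), ({t | 0 < s t} : Set ℝ).indicator (fun _ => (1:ℝ)) t < L) :
    (π / L) ^ 2 * ∫ t in t0..(t0 + P), (φ t) ^ 2 * (max (s t) 0) ^ 2 ≤
      ∫ t in t0..(t0 + P), ({t | 0 < s t} : Set ℝ).indicator
        (fun t => (deriv φ t * s t + φ t * deriv s t) ^ 2) t := by
  have hle : t0 ≤ t0 + P := by linarith
  set S : Set ℝ := {t | 0 < s t} with hS
  have hsc : Continuous s := hs.continuous
  have hφc : Continuous φ := hφ.continuous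
  have hSo : IsOpen S := isOpen_lt continuous_const hsc
  have hSm : MeasurableSet S := hSo.measurableSet
  set ind : ℝ → ℝ := S.indicator (fun _ => (1:ℝ)) with hind
  have hindint : ∀ a b : ℝ, IntervalIntegrable ind volume a b := by
    intro a b
    have h : IntervalIntegrable (fun _ : ℝ => (1:ℝ)) volume a b := intervalIntegrable_const
    exact ⟨h.1.indicator hSm, h.2.indicator hSm⟩
  have hind0 : ∀ t, 0 ≤ ind t := fun t => by
    by_cases ht : t ∈ S <;> simp [hind, ht]
  set A : ℝ → ℝ := fun t => ∫ x in t0..t, ind x with hA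
  have hAcont : Continuous A := intervalIntegral.continuous_primitive hindint t0
  set ℓ : ℝ := A (t0 + P) with hℓ
  have hℓ0 : 0 ≤ ℓ := intervalIntegral.integral_nonneg hle (fun t _ => hind0 t)
  have hLpos : 0 < L := lt_of_le_of_lt hℓ0 hL
  set ε : ℝ := (L - ℓ) / 2 with hε
  have hεpos : 0 < ε := by rw [hε]; linarith [hL]
  set ω : ℝ := π / L with hω
  have hωpos : 0 < ω := by positivity
  set α : ℝ → ℝ := fun t => ω * (A t + ε) with hα
  have hAmem : ∀ t ∈ Icc t0 (t0 + P), 0 ≤ A t ∧ A t ≤ ℓ := by
    intro t ht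
    refine ⟨intervalIntegral.integral_nonneg ht.1 (fun t _ => hind0 t), ?_⟩
    have h2 : ℓ = A t + ∫ x in t..(t0 + P), ind x := by
      rw [hℓ, hA]; simp only
      rw [intervalIntegral.integral_add_adjacent_intervals (hindint _ _) (hindint _ _)]
    have h3 : 0 ≤ ∫ x in t..(t0 + P), ind x :=
      intervalIntegral.integral_nonneg ht.2 (fun t _ => hind0 t)
    linarith
  have hαmem : ∀ t ∈ Icc t0 (t0 + P), 0 < α t ∧ α t < π := by
    intro t ht
    obtain ⟨ha, hb⟩ := hAmem t ht
    refine ⟨by positivity, ?_⟩
    have : ω * (A t + ε) < ω * L := by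
      apply mul_lt_mul_of_pos_left _ hωpos
      rw [hε]; linarith
    calc α t = ω * (A t + ε) := rfl
      _ < ω * L := this
      _ = π := by rw [hω]; field_simp
  have hsin : ∀ t ∈ Icc t0 (t0 + P), 0 < sin (α t) := fun t ht =>
    sin_pos_of_pos_of_lt_pi (hαmem t ht).1 (hαmem t ht).2
  have hαcont : Continuous α := by
    have : Continuous (fun t => ω * (A t + ε)) := by fun_prop
    exact this
  set C : ℝ → ℝ := fun t => ω * (cos (α t) / sin (α t)) with hC
  have hCcont : ∀ t ∈ Icc t0 (t0 + P), ContinuousAt C t := by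
    intro t ht
    have h1 : ContinuousAt (fun t => cos (α t)) t := (continuous_cos.comp hαcont).continuousAt
    have h2 : ContinuousAt (fun t => sin (α t)) t := (continuous_sin.comp hαcont).continuousAt
    exact (h1.div h2 (hsin t ht).ne').const_mul ω
  set G : ℝ → ℝ := fun t => (φ t) ^ 2 * (max (s t) 0) ^ 2 with hG
  set G' : ℝ → ℝ := fun t => (2 * φ t * deriv φ t) * (max (s t) 0) ^ 2 +
      (φ t) ^ 2 * (2 * max (s t) 0 * deriv s t) with hG'
  have hsd : ∀ t, HasDerivAt s (deriv s t) t := fun t =>
    (hs.differentiable (by norm_num) t).hasDerivAt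
  have hφd : ∀ t, HasDerivAt φ (deriv φ t) t := fun t =>
    (hφ.differentiable (by norm_num) t).hasDerivAt
  have hGd : ∀ t, HasDerivAt G (G' t) t := by
    intro t
    have h1 : HasDerivAt (fun t => (φ t) ^ 2) (2 * φ t * deriv φ t) t := by
      have := (hφd t).fun_pow 2
      simpa using this
    have h2 : HasDerivAt (fun t => (max (s t) 0) ^ 2) (2 * max (s t) 0 * deriv s t) t :=
      (hasDerivAt_max_sq (s t)).comp t (hsd t)
    exact h1.mul h2
  set D : ℝ → ℝ := fun t => C t * G' t - ω ^ 2 / (sin (α t)) ^ 2 * G t with hD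
  have hHd : ∀ t ∈ uIcc t0 (t0 + P), HasDerivAt (fun t => C t * G t) (D t) t := by
    intro t ht
    rw [uIcc_of_le hle] at ht
    have hsn := (hsin t ht).ne'
    by_cases hst : t ∈ S
    · have hAd : HasDerivAt A 1 t := by
        have hev : ind =ᶠ[nhds t] fun _ => (1:ℝ) := by
          filter_upwards [hSo.mem_nhds hst] with x hx
          simp [hind, hx]
        have hca : ContinuousAt ind t := by
          have : ContinuousAt (fun _ : ℝ => (1:ℝ)) t := continuousAt_const
          exact this.congr hev.symm
        have h := intervalIntegral.integral_hasDerivAt_right (hindint t0 t)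
          (((measurable_const.indicator hSm : Measurable ind).stronglyMeasurable).stronglyMeasurableAtFilter) hca
        have h1 : ind t = 1 := by simp [hind, hst]
        rwa [h1] at h
      have hαd : HasDerivAt α ω t := by
        have := (hAd.add_const ε).const_mul ω
        simpa using this
      have hCd : HasDerivAt C (-(ω ^ 2 / (sin (α t)) ^ 2)) t := by
        have h1 := hαd.cos.div hαd.sin hsn
        have h2 := h1.const_mul ω
        refine HasDerivAt.congr_deriv h2 ?_
        have := sin_sq_add_cos_sq (α t)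
        field_simp
        linear_combination (-1 : ℝ) * this
      have := hCd.mul (hGd t)
      refine HasDerivAt.congr_deriv this ?_
      simp only [hD]; ring
    · have hs0 : s t ≤ 0 := not_lt.mp hst
      have hG0 : G t = 0 := by simp [hG, max_eq_right hs0]
      have := hasDerivAt_mul_of_zero (hCcont t ht) (hGd t) hG0
      refine HasDerivAt.congr_deriv this ?_
      simp [hD, hG0]
  have hφ'c : Continuous (deriv φ) := hφ.continuous_deriv (by norm_num)
  have hs'c : Continuous (deriv s) := hs.continuous_deriv (by norm_num)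
  have hGc : Continuous G := by
    have : Continuous (fun t => (φ t) ^ 2 * (max (s t) 0) ^ 2) := by fun_prop
    exact this
  have hG'c : Continuous G' := by
    have : Continuous (fun t => (2 * φ t * deriv φ t) * (max (s t) 0) ^ 2 +
      (φ t) ^ 2 * (2 * max (s t) 0 * deriv s t)) := by fun_prop
    exact this
  have hDc : ContinuousOn D (uIcc t0 (t0 + P)) := by
    rw [uIcc_of_le hle]
    intro t ht
    refine ContinuousAt.continuousWithinAt ?_
    have h1 : ContinuousAt (fun t => sin (α t)) t := (continuous_sin.comp hαcont).continuousAt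
    have h2 : ContinuousAt (fun t => ω ^ 2 / (sin (α t)) ^ 2) t :=
      continuousAt_const.div (h1.pow 2) (pow_ne_zero 2 (hsin t ht).ne')
    exact ((hCcont t ht).mul hG'c.continuousAt).sub (h2.mul hGc.continuousAt)
  have hDint : IntervalIntegrable D volume t0 (t0 + P) := hDc.intervalIntegrable
  have hFTC : ∫ t in t0..(t0 + P), D t = 0 := by
    rw [intervalIntegral.integral_eq_sub_of_hasDerivAt hHd hDint]
    simp [hG, max_eq_right h0, max_eq_right h1]
  set F : ℝ → ℝ := S.indicator (fun t => (deriv φ t * s t + φ t * deriv s t) ^ 2) with hF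
  have hFint : IntervalIntegrable F volume t0 (t0 + P) := by
    have hc : Continuous (fun t => (deriv φ t * s t + φ t * deriv s t) ^ 2) := by fun_prop
    have h := hc.intervalIntegrable (μ := volume) t0 (t0 + P)
    exact ⟨h.1.indicator hSm, h.2.indicator hSm⟩
  have hGint : IntervalIntegrable G volume t0 (t0 + P) := hGc.intervalIntegrable _ _
  have hpt : ∀ t ∈ Icc t0 (t0 + P), ω ^ 2 * G t + D t ≤ F t := by
    intro t ht
    have hsn := (hsin t ht).ne'
    by_cases hst : t ∈ S
    · have hst' : 0 < s t := hst
      have hF1 : F t = (deriv φ t * s t + φ t * deriv s t) ^ 2 := by simp [hF, hst]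
      have hkey : ω ^ 2 - ω ^ 2 / (sin (α t)) ^ 2 = - (C t) ^ 2 := by
        simp only [hC]
        have := sin_sq_add_cos_sq (α t)
        field_simp
        linear_combination this
      rw [hF1]
      have e1 : ω ^ 2 * G t + D t = C t * G' t - (C t) ^ 2 * G t := by
        simp only [hD]
        linear_combination G t * hkey
      rw [e1]
      simp only [hG, hG', max_eq_left hst'.le]
      nlinarith [sq_nonneg ((deriv φ t * s t + φ t * deriv s t) - C t * (φ t * s t))]
    · have hs0 : s t ≤ 0 := not_lt.mp hst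
      have hG0 : G t = 0 := by simp [hG, max_eq_right hs0]
      have hG'0 : G' t = 0 := by simp [hG', max_eq_right hs0]
      have hF0 : F t = 0 := by simp [hF, hst]
      simp [hD, hG0, hG'0, hF0]
  have hmono := intervalIntegral.integral_mono_on hle ((hGint.const_mul (ω ^ 2)).add hDint) hFint hpt
  rw [intervalIntegral.integral_add (hGint.const_mul (ω ^ 2)) hDint, hFTC,
    intervalIntegral.integral_const_mul, add_zero] at hmono
  exact hmono

end Pool.Helper296.Ovals
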