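import Pool.Agent.Helper296.Ovals.Scalar

set_option autoImplicit false
open MeasureTheory Set Real

namespace Pool.Helper296.Ovals

/-- the sign function, with values in `ℝ` -/
noncomputable def sg (x : ℝ) : ℝ :=
  (Ioi (0:ℝ)).indicator (fun _ => (1:ℝ)) x - (Iio (0:ℝ)).indicator (fun _ => (1:ℝ)) x

lemma measurable_sg : Measurable sg :=
  (measurable_const.indicator measurableSet_Ioi).sub (measurable_const.indicator measurableSet_Iio)

lemma abs_sg_le (x : ℝ) : |sg x| ≤ 1 := by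
  unfold sg
  rcases lt_trichotomy x 0 with h | h | h
  · simp [h, not_lt.mpr h.le]
  · subst h; simp
  · simp [h, not_lt.mpr h.le]

lemma mul_sg (x : ℝ) : x * sg x = |x| := by
  unfold sg
  rcases lt_trichotomy x 0 with h | h | h
  · simp [h, not_lt.mpr h.le, abs_of_neg h]
  · subst h; simp
  · simp [h, not_lt.mpr h.le, abs_of_pos h]

lemma pt_ineq {x u σ : ℝ} (hx : 0 ≤ x) (hu : 0 < u) (hσ : 0 < σ) :
    3 / σ ^ 2 * x ^ ((4:ℝ)/3) - 2 / σ ^ 3 * u * x ≤ (1 / u) ^ 2 * x ^ 2 := by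
  set y : ℝ := x ^ ((1:ℝ)/3) with hy
  have hy0 : 0 ≤ y := rpow_nonneg hx _
  have e1 : x = y ^ 3 := by
    rw [hy, ← rpow_natCast, ← rpow_mul hx]; norm_num
  have e2 : x ^ ((4:ℝ)/3) = y ^ 4 := by
    rw [hy, ← rpow_natCast, ← rpow_mul hx]; norm_num
  rw [e2]
  have e3 : (1 / u) ^ 2 * x ^ 2 = (1 / u) ^ 2 * (y ^ 3) ^ 2 := by rw [← e1]
  have e4 : 2 / σ ^ 3 * u * x = 2 / σ ^ 3 * u * y ^ 3 := by rw [← e1]
  rw [e3, e4]
  have key : 0 ≤ (y * σ - u) ^ 2 * (y * σ + 2 * u) := by positivity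
  have h3 : 0 ≤ y ^ 3 * ((y * σ - u) ^ 2 * (y * σ + 2 * u)) / (u ^ 2 * σ ^ 3) := by positivity
  have : (1 / u) ^ 2 * (y ^ 3) ^ 2 - (3 / σ ^ 2 * y ^ 4 - 2 / σ ^ 3 * u * y ^ 3) =
      y ^ 3 * ((y * σ - u) ^ 2 * (y * σ + 2 * u)) / (u ^ 2 * σ ^ 3) := by
    field_simp
    ring
  linarith

/-- One-sided inequality. -/
theorem one_side (s φ : ℝ → ℝ) (hs : ContDiff ℝ 1 s) (hφ : ContDiff ℝ 1 φ)
    (hsP : Function.Periodic s (2 * π)) (hφP : Function.Periodic φ (2 * π))
    (t0 : ℝ) (h0 : s t0 ≤ 0) (σ : ℝ) (hσ : 0 < σ) :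
    3 / σ ^ 2 * (∫ t in (0:ℝ)..(2 * π), (φ t) ^ 2 * (max (s t) 0) ^ ((4:ℝ)/3)) -
      2 / (σ ^ 3 * π) * (∫ t in (0:ℝ)..(2 * π), ({t | 0 < s t} : Set ℝ).indicator (fun _ => (1:ℝ)) t) *
        (∫ t in (0:ℝ)..(2 * π), (φ t) ^ 2 * (max (s t) 0)) ≤
      ∫ t in (0:ℝ)..(2 * π), ({t | 0 < s t} : Set ℝ).indicator
        (fun t => (deriv φ t * s t + φ t * deriv s t) ^ 2) t := by
  have hπ := pi_pos
  set S : Set ℝ := {t | 0 < s t} with hS
  have hsc : Continuous s := hs.continuous
  have hφc : Continuous φ := hφ.continuous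
  have h1 : s (t0 + 2 * π) ≤ 0 := by rw [hsP]; exact h0
  have hds : Function.Periodic (deriv s) (2 * π) := by
    intro x
    have : deriv (fun y => s (y + 2 * π)) x = deriv s (x + 2 * π) := deriv_comp_add_const _ _ _
    rw [← this]; congr 1; funext y; exact hsP y
  have hdφ : Function.Periodic (deriv φ) (2 * π) := by
    intro x
    have : deriv (fun y => φ (y + 2 * π)) x = deriv φ (x + 2 * π) := deriv_comp_add_const _ _ _
    rw [← this]; congr 1; funext y; exact hφP y
  -- periodic shifts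
  have hmem : ∀ x, (x + 2 * π ∈ S) ↔ x ∈ S := by
    intro x; simp only [hS, mem_ofPred_eq, hsP x]
  have shift : ∀ g : ℝ → ℝ, Function.Periodic g (2 * π) →
      ∫ t in t0..(t0 + 2 * π), g t = ∫ t in (0:ℝ)..(2 * π), g t := by
    intro g hg
    have := hg.intervalIntegral_add_eq t0 0
    rwa [zero_add] at this
  have p1 : Function.Periodic (S.indicator (fun _ => (1:ℝ))) (2 * π) := by
    intro x
    by_cases hx : x ∈ S
    · rw [indicator_of_mem ((hmem x).2 hx), indicator_of_mem hx]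
    · rw [indicator_of_notMem (fun h => hx ((hmem x).1 h)), indicator_of_notMem hx]
  have p2 : Function.Periodic (fun t => (φ t) ^ 2 * (max (s t) 0) ^ 2) (2 * π) := by
    intro x; simp only [hφP x, hsP x]
  have p3 : Function.Periodic (S.indicator (fun t => (deriv φ t * s t + φ t * deriv s t) ^ 2)) (2 * π) := by
    intro x
    by_cases hx : x ∈ S
    · rw [indicator_of_mem ((hmem x).2 hx), indicator_of_mem hx, hφP, hsP, hds, hdφ]
    · rw [indicator_of_notMem (fun h => hx ((hmem x).1 h)), indicator_of_notMem hx]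
  set ℓ : ℝ := ∫ t in (0:ℝ)..(2 * π), S.indicator (fun _ => (1:ℝ)) t with hℓ
  set R : ℝ := ∫ t in (0:ℝ)..(2 * π), S.indicator
        (fun t => (deriv φ t * s t + φ t * deriv s t) ^ 2) t with hR
  set a : ℝ := ∫ t in (0:ℝ)..(2 * π), (φ t) ^ 2 * (max (s t) 0) ^ ((4:ℝ)/3) with ha
  set c : ℝ := ∫ t in (0:ℝ)..(2 * π), (φ t) ^ 2 * (max (s t) 0) with hc
  have hle : (0:ℝ) ≤ 2 * π := by positivity
  have hℓ0 : 0 ≤ ℓ := by
    apply intervalIntegral.integral_nonneg hle
    intro t _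
    by_cases ht : t ∈ S <;> simp [ht]
  have hc0 : 0 ≤ c := by
    apply intervalIntegral.integral_nonneg hle
    intro t _; positivity
  have hmaxc : Continuous (fun t => max (s t) 0) := by fun_prop
  have hpowc : Continuous (fun t => (max (s t) 0) ^ ((4:ℝ)/3)) :=
    hmaxc.rpow_const (fun t => Or.inr (by norm_num))
  have main : ∀ L, ℓ < L → 3 / σ ^ 2 * a - 2 / (σ ^ 3 * π) * L * c ≤ R := by
    intro L hL
    have hLpos : 0 < L := lt_of_le_of_lt hℓ0 hL
    have h := dirichlet s φ hs hφ t0 (2 * π) (by positivity) h0 h1 L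
      (by rw [shift _ p1]; exact hL)
    rw [shift _ p2, shift _ p3] at h
    refine le_trans ?_ h
    have hpt : ∀ t ∈ Icc (0:ℝ) (2 * π),
        (φ t) ^ 2 * (3 / σ ^ 2 * (max (s t) 0) ^ ((4:ℝ)/3)) - (φ t) ^ 2 * (2 / (σ ^ 3 * π) * L * (max (s t) 0)) ≤
        (π / L) ^ 2 * ((φ t) ^ 2 * (max (s t) 0) ^ 2) := by
      intro t _
      have h4 := pt_ineq (x := max (s t) 0) (u := L / π) (σ := σ) (le_max_right _ _) (by positivity) hσ
      have e1 : (1 / (L / π)) = π / L := by field_simp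
      rw [e1] at h4
      have e2 : 2 / σ ^ 3 * (L / π) * max (s t) 0 = 2 / (σ ^ 3 * π) * L * max (s t) 0 := by
        field_simp
      rw [e2] at h4
      have := mul_le_mul_of_nonneg_left h4 (sq_nonneg (φ t))
      nlinarith [this]
    have i1 : IntervalIntegrable (fun t => (φ t) ^ 2 * (3 / σ ^ 2 * (max (s t) 0) ^ ((4:ℝ)/3))) volume 0 (2 * π) :=
      ((hφc.pow 2).mul (continuous_const.mul hpowc)).intervalIntegrable _ _
    have i2 : IntervalIntegrable (fun t => (φ t) ^ 2 * (2 / (σ ^ 3 * π) * L * (max (s t) 0))) volume 0 (2 * π) :=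
      ((hφc.pow 2).mul (continuous_const.mul hmaxc)).intervalIntegrable _ _
    have i3 : IntervalIntegrable (fun t => (π / L) ^ 2 * ((φ t) ^ 2 * (max (s t) 0) ^ 2)) volume 0 (2 * π) :=
      (continuous_const.mul ((hφc.pow 2).mul (hmaxc.pow 2))).intervalIntegrable _ _
    have hm := intervalIntegral.integral_mono_on hle (i1.sub i2) i3 hpt
    rw [intervalIntegral.integral_const_mul, intervalIntegral.integral_sub i1 i2] at hm
    have e3 : ∫ t in (0:ℝ)..(2 * π), (φ t) ^ 2 * (3 / σ ^ 2 * (max (s t) 0) ^ ((4:ℝ)/3)) = 3 / σ ^ 2 * a := by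
      rw [ha, ← intervalIntegral.integral_const_mul]
      apply intervalIntegral.integral_congr; intro t _; simp only; ring
    have e4 : ∫ t in (0:ℝ)..(2 * π), (φ t) ^ 2 * (2 / (σ ^ 3 * π) * L * (max (s t) 0)) =
        2 / (σ ^ 3 * π) * L * c := by
      rw [hc, ← intervalIntegral.integral_const_mul]
      apply intervalIntegral.integral_congr; intro t _; simp only; ring
    rw [e3, e4] at hm
    exact hm
  by_contra hcon
  push Not at hcon
  set k : ℝ := 2 / (σ ^ 3 * π) * c with hk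
  have hk0 : 0 ≤ k := by positivity
  set d : ℝ := 3 / σ ^ 2 * a - 2 / (σ ^ 3 * π) * ℓ * c - R with hd
  have hd0 : 0 < d := by rw [hd]; linarith
  have h5 := main (ℓ + d / (k + 1)) (by
    have : 0 < d / (k + 1) := by positivity
    linarith)
  have e5 : 2 / (σ ^ 3 * π) * (ℓ + d / (k + 1)) * c = 2 / (σ ^ 3 * π) * ℓ * c + k * (d / (k + 1)) := by
    rw [hk]; ring
  rw [e5] at h5
  have h6 : k * (d / (k + 1)) < d := by
    rw [← mul_div_assoc, div_lt_iff₀ (by positivity)]
    nlinarith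
  linarith

/-- The main scalar inequality. -/
theorem scalar_main (s φ : ℝ → ℝ) (hs : ContDiff ℝ 1 s) (hφ : ContDiff ℝ 1 φ)
    (hsP : Function.Periodic s (2 * π)) (hφP : Function.Periodic φ (2 * π))
    (hs0 : ∫ t in (0:ℝ)..(2 * π), s t = 0) (σ : ℝ) (hσ : 0 < σ) :
    3 / σ ^ 2 * (∫ t in (0:ℝ)..(2 * π), (φ t) ^ 2 * |s t| ^ ((4:ℝ)/3)) -
      2 / σ ^ 3 * (∫ t in (0:ℝ)..(2 * π), (φ t) ^ 2 * |s t|) -
      1 / (σ ^ 3 * π) * (∫ t in (0:ℝ)..(2 * π), sg (s t)) * (∫ t in (0:ℝ)..(2 * π), (φ t) ^ 2 * s t) ≤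
      ∫ t in (0:ℝ)..(2 * π), (deriv φ t * s t + φ t * deriv s t) ^ 2 := by
  have hπ := pi_pos
  have hle : (0:ℝ) ≤ 2 * π := by positivity
  have hsc : Continuous s := hs.continuous
  have hφc : Continuous φ := hφ.continuous
  have hφ'c : Continuous (deriv φ) := hφ.continuous_deriv (by norm_num)
  have hs'c : Continuous (deriv s) := hs.continuous_deriv (by norm_num)
  have exist : ∀ g : ℝ → ℝ, Continuous g → ∫ t in (0:ℝ)..(2 * π), g t = 0 → ∃ t0, g t0 ≤ 0 := by
    intro g hg hg0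
    by_contra hcon
    push Not at hcon
    have : 0 < ∫ t in (0:ℝ)..(2 * π), g t :=
      intervalIntegral.intervalIntegral_pos_of_pos (hg.intervalIntegrable _ _) hcon (by positivity)
    linarith
  obtain ⟨t0, ht0⟩ := exist s hsc hs0
  have hns0 : ∫ t in (0:ℝ)..(2 * π), (fun t => - s t) t = 0 := by
    simp only [intervalIntegral.integral_neg, hs0, neg_zero]
  obtain ⟨t1, ht1⟩ := exist (fun t => - s t) hsc.neg hns0
  have A1 := one_side s φ hs hφ hsP hφP t0 ht0 σ hσ
  have hnP : Function.Periodic (fun t => - s t) (2 * π) := fun x => by simp only [hsP x]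
  have A2 := one_side (fun t => - s t) φ hs.neg hφ hnP hφP t1 ht1 σ hσ
  have hdn : deriv (fun t => - s t) = fun t => - deriv s t := by
    funext t; exact deriv.fun_neg
  rw [hdn] at A2
  set Sp : Set ℝ := {t | 0 < s t} with hSp
  have hSp_o : IsOpen Sp := isOpen_lt continuous_const hsc
  set Sn : Set ℝ := {t | 0 < - s t} with hSn
  have hSn_o : IsOpen Sn := isOpen_lt continuous_const hsc.neg
  have iSp : ∀ g : ℝ → ℝ, Continuous g → IntervalIntegrable (Sp.indicator g) volume 0 (2 * π) := by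
    intro g hg
    have h := hg.intervalIntegrable (μ := volume) 0 (2 * π)
    exact ⟨h.1.indicator hSp_o.measurableSet, h.2.indicator hSp_o.measurableSet⟩
  have iSn : ∀ g : ℝ → ℝ, Continuous g → IntervalIntegrable (Sn.indicator g) volume 0 (2 * π) := by
    intro g hg
    have h := hg.intervalIntegrable (μ := volume) 0 (2 * π)
    exact ⟨h.1.indicator hSn_o.measurableSet, h.2.indicator hSn_o.measurableSet⟩
  -- right sides
  have cF : Continuous (fun t => (deriv φ t * s t + φ t * deriv s t) ^ 2) := by fun_prop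
  have hRsum : (∫ t in (0:ℝ)..(2 * π), Sp.indicator (fun t => (deriv φ t * s t + φ t * deriv s t) ^ 2) t) +
      (∫ t in (0:ℝ)..(2 * π), Sn.indicator (fun t => (deriv φ t * (- s t) + φ t * (- deriv s t)) ^ 2) t) ≤
      ∫ t in (0:ℝ)..(2 * π), (deriv φ t * s t + φ t * deriv s t) ^ 2 := by
    have cF2 : Continuous (fun t => (deriv φ t * (- s t) + φ t * (- deriv s t)) ^ 2) := by fun_prop
    rw [← intervalIntegral.integral_add (iSp _ cF) (iSn _ cF2)]
    apply intervalIntegral.integral_mono_on hle ((iSp _ cF).add (iSn _ cF2)) (cF.intervalIntegrable _ _)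
    intro t _
    have e : (deriv φ t * (- s t) + φ t * (- deriv s t)) ^ 2 = (deriv φ t * s t + φ t * deriv s t) ^ 2 := by ring
    by_cases h1 : t ∈ Sp
    · have h1' : 0 < s t := h1
      have h2 : t ∉ Sn := by
        intro h; have h' : 0 < - s t := h; linarith
      rw [indicator_of_mem h1, indicator_of_notMem h2, add_zero]
    · by_cases h2 : t ∈ Sn
      · rw [indicator_of_notMem h1, indicator_of_mem h2, zero_add, e]
      · rw [indicator_of_notMem h1, indicator_of_notMem h2, add_zero]; positivity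
  -- lengths
  set Z : ℝ := ∫ t in (0:ℝ)..(2 * π), sg (s t) with hZ
  have isg : IntervalIntegrable (fun t => sg (s t)) volume 0 (2 * π) := by
    have h1 := (iSp (fun _ => (1:ℝ)) continuous_const).sub (iSn (fun _ => (1:ℝ)) continuous_const)
    refine h1.congr ?_
    intro t _
    simp only [sg, indicator, mem_Ioi, mem_Iio, hSp, hSn, mem_ofPred_eq, Left.neg_pos_iff]
  have lp : (∫ t in (0:ℝ)..(2 * π), Sp.indicator (fun _ => (1:ℝ)) t) ≤ π + Z / 2 := by
    have h1 : (∫ t in (0:ℝ)..(2 * π), Sp.indicator (fun _ => (1:ℝ)) t) ≤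
        ∫ t in (0:ℝ)..(2 * π), ((1:ℝ)/2 + sg (s t) * (1/2)) := by
      apply intervalIntegral.integral_mono_on hle (iSp (fun _ => (1:ℝ)) continuous_const)
        (intervalIntegrable_const.add (isg.mul_const _))
      intro t _
      simp only [sg, indicator, mem_Ioi, mem_Iio, hSp, mem_ofPred_eq]
      split_ifs <;> norm_num <;> linarith
    rw [intervalIntegral.integral_add intervalIntegrable_const (isg.mul_const _),
      intervalIntegral.integral_const, intervalIntegral.integral_mul_const] at h1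
    simp only [sub_zero, smul_eq_mul] at h1
    linarith
  have ln : (∫ t in (0:ℝ)..(2 * π), Sn.indicator (fun _ => (1:ℝ)) t) ≤ π - Z / 2 := by
    have h1 : (∫ t in (0:ℝ)..(2 * π), Sn.indicator (fun _ => (1:ℝ)) t) ≤
        ∫ t in (0:ℝ)..(2 * π), ((1:ℝ)/2 - sg (s t) * (1/2)) := by
      apply intervalIntegral.integral_mono_on hle (iSn (fun _ => (1:ℝ)) continuous_const)
        (intervalIntegrable_const.sub (isg.mul_const _))
      intro t _
      simp only [sg, indicator, mem_Ioi, mem_Iio, hSn, mem_ofPred_eq, Left.neg_pos_iff]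
      split_ifs <;> norm_num <;> linarith
    rw [intervalIntegral.integral_sub intervalIntegrable_const (isg.mul_const _),
      intervalIntegral.integral_const, intervalIntegral.integral_mul_const] at h1
    simp only [sub_zero, smul_eq_mul] at h1
    linarith
  -- integrals of the parts
  have hpc : Continuous (fun t => max (s t) 0) := by fun_prop
  have hnc : Continuous (fun t => max (- s t) 0) := by fun_prop
  have hpc' : Continuous (fun t => (max (s t) 0) ^ ((4:ℝ)/3)) :=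
    hpc.rpow_const (fun t => Or.inr (by norm_num))
  have hnc' : Continuous (fun t => (max (- s t) 0) ^ ((4:ℝ)/3)) :=
    hnc.rpow_const (fun t => Or.inr (by norm_num))
  have e43 : (∫ t in (0:ℝ)..(2 * π), (φ t) ^ 2 * |s t| ^ ((4:ℝ)/3)) =
      (∫ t in (0:ℝ)..(2 * π), (φ t) ^ 2 * (max (s t) 0) ^ ((4:ℝ)/3)) +
      (∫ t in (0:ℝ)..(2 * π), (φ t) ^ 2 * (max (- s t) 0) ^ ((4:ℝ)/3)) := by
    have j1 : IntervalIntegrable (fun t => (φ t) ^ 2 * (max (s t) 0) ^ ((4:ℝ)/3)) volume 0 (2 * π) :=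
      ((hφc.pow 2).mul hpc').intervalIntegrable _ _
    have j2 : IntervalIntegrable (fun t => (φ t) ^ 2 * (max (- s t) 0) ^ ((4:ℝ)/3)) volume 0 (2 * π) :=
      ((hφc.pow 2).mul hnc').intervalIntegrable _ _
    rw [← intervalIntegral.integral_add j1 j2]
    apply intervalIntegral.integral_congr
    intro t _
    simp only
    rcases le_total 0 (s t) with h | h
    · rw [abs_of_nonneg h, max_eq_left h, max_eq_right (by linarith : - s t ≤ 0),
        zero_rpow (by norm_num)]; ring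
    · rw [abs_of_nonpos h, max_eq_right h, max_eq_left (by linarith : 0 ≤ - s t),
        zero_rpow (by norm_num)]; ring
  set cp : ℝ := ∫ t in (0:ℝ)..(2 * π), (φ t) ^ 2 * (max (s t) 0) with hcp
  set cn : ℝ := ∫ t in (0:ℝ)..(2 * π), (φ t) ^ 2 * (max (- s t) 0) with hcn
  have icp : IntervalIntegrable (fun t => (φ t) ^ 2 * (max (s t) 0)) volume 0 (2 * π) :=
    ((hφc.pow 2).mul hpc).intervalIntegrable _ _
  have icn : IntervalIntegrable (fun t => (φ t) ^ 2 * (max (- s t) 0)) volume 0 (2 * π) :=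
    ((hφc.pow 2).mul hnc).intervalIntegrable _ _
  have hcp0 : 0 ≤ cp := intervalIntegral.integral_nonneg hle (fun t _ => by positivity)
  have hcn0 : 0 ≤ cn := intervalIntegral.integral_nonneg hle (fun t _ => by positivity)
  have e1 : (∫ t in (0:ℝ)..(2 * π), (φ t) ^ 2 * |s t|) = cp + cn := by
    rw [hcp, hcn, ← intervalIntegral.integral_add icp icn]
    apply intervalIntegral.integral_congr
    intro t _
    simp only
    rcases le_total 0 (s t) with h | h
    · rw [abs_of_nonneg h, max_eq_left h, max_eq_right (by linarith : - s t ≤ 0)]; ring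
    · rw [abs_of_nonpos h, max_eq_right h, max_eq_left (by linarith : 0 ≤ - s t)]; ring
  have e0 : (∫ t in (0:ℝ)..(2 * π), (φ t) ^ 2 * s t) = cp - cn := by
    rw [hcp, hcn, ← intervalIntegral.integral_sub icp icn]
    apply intervalIntegral.integral_congr
    intro t _
    simp only
    rcases le_total 0 (s t) with h | h
    · rw [max_eq_left h, max_eq_right (by linarith : - s t ≤ 0)]; ring
    · rw [max_eq_right h, max_eq_left (by linarith : 0 ≤ - s t)]; ring
  rw [e43, e1, e0]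
  have hk : 0 < 2 / (σ ^ 3 * π) := by positivity
  have b1 : 2 / (σ ^ 3 * π) * (∫ t in (0:ℝ)..(2 * π), Sp.indicator (fun _ => (1:ℝ)) t) * cp ≤
      2 / (σ ^ 3 * π) * (π + Z / 2) * cp :=
    mul_le_mul_of_nonneg_right (mul_le_mul_of_nonneg_left lp hk.le) hcp0
  have b2 : 2 / (σ ^ 3 * π) * (∫ t in (0:ℝ)..(2 * π), Sn.indicator (fun _ => (1:ℝ)) t) * cn ≤
      2 / (σ ^ 3 * π) * (π - Z / 2) * cn :=
    mul_le_mul_of_nonneg_right (mul_le_mul_of_nonneg_left ln hk.le) hcn0
  have e5 : 2 / (σ ^ 3 * π) * (π + Z / 2) * cp + 2 / (σ ^ 3 * π) * (π - Z / 2) * cn =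
      2 / σ ^ 3 * (cp + cn) + 1 / (σ ^ 3 * π) * Z * (cp - cn) := by
    field_simp
    ring
  linarith

end Pool.Helper296.Ovals
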